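import Mathlib

/-!
# A partial isometry satisfying the dimension condition which is not embeddable

`H = K ⊕ K ⊕ ℂ` with `K = ℓ²(ℕ)` and `T (a, b, c) = (0, a, 0)`.  Then `T` is a partial isometry,
its kernel and the orthogonal complement of its range are infinite dimensional, but a `C₀`-semigroup
`S` with `S 1 = T` would leave `ker T` and `ran T` invariant and so act on the one-dimensional
quotient `ker T / ran T` by a continuous multiplicative function `c` with `c 0 = 1`, `c 1 = 0`.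
-/

namespace Pool.Agent.Results.MP_d5c8f2_an.NotEmbeddable

/-- `S` is a `C₀`-semigroup of bounded operators on `H` (only the values at `t ≥ 0` matter). -/
def IsC0Semigroup {H : Type} [NormedAddCommGroup H] [InnerProductSpace ℂ H]
    (S : ℝ → H →L[ℂ] H) : Prop :=
  S 0 = ContinuousLinearMap.id ℂ H ∧
  (∀ s t : ℝ, 0 ≤ s → 0 ≤ t → S (s + t) = (S s).comp (S t)) ∧
  ∀ x : H, ContinuousOn (fun t => S t x) (Set.Ici 0)

/-- `T` is a partial isometry. -/
def IsPartialIsometry {H : Type} [NormedAddCommGroup H] [InnerProductSpace ℂ H]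
    (T : H →L[ℂ] H) : Prop :=
  ∀ x ∈ (LinearMap.ker (T : H →ₗ[ℂ] H))ᗮ, ‖T x‖ = ‖x‖

noncomputable abbrev K := lp (fun _ : ℕ => ℂ) 2

noncomputable abbrev H := WithLp 2 (K × WithLp 2 (K × ℂ))

noncomputable def e1 : H ≃L[ℂ] K × WithLp 2 (K × ℂ) := WithLp.prodContinuousLinearEquiv 2 ℂ _ _

noncomputable def e2 : WithLp 2 (K × ℂ) ≃L[ℂ] K × ℂ := WithLp.prodContinuousLinearEquiv 2 ℂ _ _

/-- the vector `(a, b, c)` -/
noncomputable def mk (a : K) (b : K) (c : ℂ) : H := e1.symm (a, e2.symm (b, c))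

noncomputable def T : H →L[ℂ] H :=
  (e1.symm : (K × WithLp 2 (K × ℂ)) →L[ℂ] H).comp
    (((0 : H →L[ℂ] K)).prod
      ((e2.symm : (K × ℂ) →L[ℂ] WithLp 2 (K × ℂ)).comp
        (((ContinuousLinearMap.fst ℂ K (WithLp 2 (K × ℂ))).comp (e1 : H →L[ℂ] _)).prod
          (0 : H →L[ℂ] ℂ))))

noncomputable def φ : H →L[ℂ] ℂ :=
  (ContinuousLinearMap.snd ℂ K ℂ).comp ((e2 : WithLp 2 (K × ℂ) →L[ℂ] _).comp
    ((ContinuousLinearMap.snd ℂ K (WithLp 2 (K × ℂ))).comp (e1 : H →L[ℂ] _)))

lemma T_apply (x : H) : T x = mk 0 (e1 x).1 0 := rfl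

lemma exists_mk (x : H) : ∃ a b c, x = mk a b c :=
  ⟨(e1 x).1, (e2 (e1 x).2).1, (e2 (e1 x).2).2, by simp [mk]⟩

lemma T_mk (a b : K) (c : ℂ) : T (mk a b c) = mk 0 a 0 := by
  rw [T_apply]; simp [mk]

lemma φ_mk (a b : K) (c : ℂ) : φ (mk a b c) = c := by
  simp [φ, mk]

lemma mk_add (a b a' b' : K) (c c' : ℂ) : mk a b c + mk a' b' c' = mk (a + a') (b + b') (c + c') := by
  simp only [mk, ← map_add, Prod.mk_add_mk]

lemma mk_smul (r : ℂ) (a b : K) (c : ℂ) : r • mk a b c = mk (r • a) (r • b) (r • c) := by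
  simp only [mk, ← map_smul, Prod.smul_mk]

lemma inner_mk (a b a' b' : K) (c c' : ℂ) :
    inner ℂ (mk a b c) (mk a' b' c') = inner ℂ a a' + (inner ℂ b b' + inner ℂ c c') := by
  simp [mk, e1, e2, WithLp.prod_inner_apply]

lemma norm_sq_mk (a b : K) (c : ℂ) : ‖mk a b c‖ ^ 2 = ‖a‖ ^ 2 + (‖b‖ ^ 2 + ‖c‖ ^ 2) := by
  have h := inner_mk a b a b c c
  rw [inner_self_eq_norm_sq_to_K, inner_self_eq_norm_sq_to_K, inner_self_eq_norm_sq_to_K,
    inner_self_eq_norm_sq_to_K] at h
  exact_mod_cast h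

lemma not_findim_K : ¬ FiniteDimensional ℂ K := by
  intro h
  have horth : Orthonormal ℂ (fun i : ℕ => (lp.single 2 i (1 : ℂ) : K)) := by
    rw [orthonormal_iff_ite]
    intro i j
    rw [lp.inner_single_left]
    simp only [lp.single_apply, Pi.single_apply]
    by_cases h : i = j <;> simp [h]
  have := horth.linearIndependent
  exact (this.finite).false

theorem result : ∃ (H : Type) (_ : NormedAddCommGroup H) (_ : InnerProductSpace ℂ H)
    (_ : CompleteSpace H) (T : H →L[ℂ] H), IsPartialIsometry T ∧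
      ¬ FiniteDimensional ℂ (LinearMap.ker (T : H →ₗ[ℂ] H)) ∧
      ¬ FiniteDimensional ℂ ((LinearMap.range (T : H →ₗ[ℂ] H))ᗮ : Submodule ℂ H) ∧
      ∀ S : ℝ → H →L[ℂ] H, IsC0Semigroup S → S 1 ≠ T := by
  refine ⟨H, inferInstance, inferInstance, inferInstance, T, ?_, ?_, ?_, ?_⟩
  · intro x hx
    obtain ⟨a, b, c, rfl⟩ := exists_mk x
    have h1 : mk 0 b c ∈ LinearMap.ker (T : H →ₗ[ℂ] H) := by
      rw [LinearMap.mem_ker]
      show T (mk 0 b c) = 0
      rw [T_mk]
      simp [mk]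
    have h2 := (Submodule.mem_orthogonal _ _).mp hx _ h1
    rw [inner_mk, inner_self_eq_norm_sq_to_K, inner_self_eq_norm_sq_to_K] at h2
    have h3 : ‖b‖ ^ 2 + ‖c‖ ^ 2 = 0 := by
      simp only [inner_zero_left, zero_add] at h2
      have h3 := congrArg Complex.re h2
      simp only [Complex.add_re, Complex.coe_algebraMap, ← Complex.ofReal_pow, Complex.ofReal_re,
        Complex.zero_re] at h3
      exact h3
    have hb : ‖b‖ = 0 := by nlinarith [sq_nonneg ‖b‖, sq_nonneg ‖c‖]
    have hc : ‖c‖ = 0 := by nlinarith [sq_nonneg ‖b‖, sq_nonneg ‖c‖]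
    rw [T_mk]
    have h4 := norm_sq_mk a b c
    have h5 := norm_sq_mk 0 a 0
    rw [hb, hc] at h4
    simp only [norm_zero] at h5
    have h6 : ‖mk 0 a 0‖ ^ 2 = ‖mk a b c‖ ^ 2 := by rw [h4, h5]; ring
    exact (sq_eq_sq₀ (norm_nonneg _) (norm_nonneg _)).mp h6
  · intro h
    apply not_findim_K
    let f : K →ₗ[ℂ] LinearMap.ker (T : H →ₗ[ℂ] H) :=
      { toFun := fun b => ⟨mk 0 b 0, by
          rw [LinearMap.mem_ker]
          show T (mk 0 b 0) = 0
          rw [T_mk]
          simp [mk]⟩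
        map_add' := by
          intro b b'
          ext1
          show mk 0 (b + b') 0 = mk 0 b 0 + mk 0 b' 0
          rw [mk_add]; simp
        map_smul' := by
          intro r b
          ext1
          show mk 0 (r • b) 0 = r • mk 0 b 0
          rw [mk_smul]; simp }
    apply FiniteDimensional.of_injective f
    intro b b' hbb
    have h1 : mk 0 b 0 = mk 0 b' 0 := congrArg Subtype.val hbb
    have h2 := congrArg (fun x => (e2 (e1 x).2).1) h1
    simpa [mk] using h2
  · intro h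
    apply not_findim_K
    let f : K →ₗ[ℂ] ((LinearMap.range (T : H →ₗ[ℂ] H))ᗮ : Submodule ℂ H) :=
      { toFun := fun a => ⟨mk a 0 0, by
          rw [Submodule.mem_orthogonal]
          rintro _ ⟨y, rfl⟩
          show inner ℂ (T y) (mk a 0 0) = 0
          rw [T_apply, inner_mk]
          simp⟩
        map_add' := by
          intro b b'
          ext1
          show mk (b + b') 0 0 = mk b 0 0 + mk b' 0 0
          rw [mk_add]; simp
        map_smul' := by
          intro r b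
          ext1
          show mk (r • b) 0 0 = r • mk b 0 0
          rw [mk_smul]; simp }
    apply FiniteDimensional.of_injective f
    intro b b' hbb
    have h1 : mk b 0 0 = mk b' 0 0 := congrArg Subtype.val hbb
    have h2 := congrArg (fun x => (e1 x).1) h1
    simpa [mk] using h2
  · rintro S ⟨hS0, hSadd, hScont⟩ hS1
    have hcomm : ∀ t : ℝ, 0 ≤ t → ∀ x, S t (T x) = T (S t x) := by
      intro t ht x
      have h1 := hSadd t 1 ht zero_le_one
      have h2 := hSadd 1 t zero_le_one ht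
      rw [add_comm, h2, hS1] at h1
      have := congrArg (fun A : H →L[ℂ] H => A x) h1
      simpa using this.symm
    have hkey : ∀ t : ℝ, 0 ≤ t → ∀ b c, φ (S t (mk 0 b c)) = c * φ (S t (mk 0 0 1)) := by
      intro t ht b c
      have h1 : mk 0 b c = T (mk b 0 0) + c • mk 0 0 1 := by
        rw [T_mk, mk_smul, mk_add]; simp
      rw [h1, map_add, map_smul, hcomm t ht, map_add, map_smul]
      obtain ⟨a', b', c', h2⟩ := exists_mk (S t (mk b 0 0))
      rw [h2, T_mk, φ_mk, zero_add, smul_eq_mul]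
    have hker : ∀ t : ℝ, 0 ≤ t → ∃ b c, S t (mk 0 0 1) = mk 0 b c := by
      intro t ht
      obtain ⟨a', b', c', h2⟩ := exists_mk (S t (mk 0 0 1))
      have h3 := hcomm t ht (mk 0 0 1)
      rw [T_mk, h2, T_mk] at h3
      have h4 : mk 0 0 0 = (0 : H) := by simp [mk]
      rw [h4, map_zero] at h3
      have h5 := congrArg (fun x => (e2 (e1 x).2).1) h3
      have h6 : a' = 0 := by simpa [mk] using h5.symm
      exact ⟨b', c', by rw [h2, h6]⟩
    have hmul : ∀ s t : ℝ, 0 ≤ s → 0 ≤ t →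
        φ (S (s + t) (mk 0 0 1)) = φ (S t (mk 0 0 1)) * φ (S s (mk 0 0 1)) := by
      intro s t hs ht
      rw [hSadd s t hs ht]
      obtain ⟨b, c, h⟩ := hker t ht
      show φ (S s (S t (mk 0 0 1))) = _
      rw [h, hkey s hs, φ_mk]
    have hzero : ∀ n : ℕ, φ (S ((1 / 2 : ℝ) ^ n) (mk 0 0 1)) = 0 := by
      intro n
      induction n with
      | zero => rw [pow_zero, hS1, T_mk, φ_mk]
      | succ n ih =>
        have h1 := hmul ((1 / 2 : ℝ) ^ (n + 1)) ((1 / 2 : ℝ) ^ (n + 1)) (by positivity) (by positivity)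
        have h2 : (1 / 2 : ℝ) ^ (n + 1) + (1 / 2 : ℝ) ^ (n + 1) = (1 / 2 : ℝ) ^ n := by ring
        rw [h2, ih] at h1
        exact mul_self_eq_zero.mp h1.symm
    have hcont : ContinuousOn (fun t => φ (S t (mk 0 0 1))) (Set.Ici 0) :=
      φ.continuous.comp_continuousOn (hScont _)
    have hlim : Filter.Tendsto (fun n : ℕ => (1 / 2 : ℝ) ^ n) Filter.atTop
        (nhdsWithin 0 (Set.Ici 0)) := by
      apply tendsto_nhdsWithin_of_tendsto_nhds_of_eventually_within
      · exact tendsto_pow_atTop_nhds_zero_of_lt_one (by norm_num) (by norm_num)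
      · exact Filter.Eventually.of_forall fun n => by
          show (0 : ℝ) ≤ _
          positivity
    have h1 := (hcont 0 Set.self_mem_Ici).tendsto.comp hlim
    have h2 : (fun n : ℕ => φ (S ((1 / 2 : ℝ) ^ n) (mk 0 0 1))) = fun _ => 0 := funext hzero
    have h3 : Filter.Tendsto (fun _ : ℕ => (0 : ℂ)) Filter.atTop (nhds (φ (S 0 (mk 0 0 1)))) := by
      rw [← h2]; exact h1
    have h4 := tendsto_nhds_unique h3 tendsto_const_nhds
    rw [hS0] at h4
    rw [ContinuousLinearMap.id_apply, φ_mk] at h4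
    exact one_ne_zero h4

end Pool.Agent.Results.MP_d5c8f2_an.NotEmbeddable
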